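import Pool.Agent.Helper69.GC.Defs

set_option autoImplicit false

namespace Pool.Agent.Helper69.GC

theorem st_CYC : ST_CYC := by
  intro V G k hNB u w hw hlen
  have h3 : 3 ≤ w.length := hw.three_le_length
  have hinj := hw.getVert_injOn'
  obtain ⟨j, hj, hg⟩ := hNB w.length (fun i => w.getVert (i % w.length)) (by omega) hlen
    (by
      intro i
      have hlt : i % w.length < w.length := Nat.mod_lt _ (by omega)
      have hadj := w.adj_getVert_succ hlt
      by_cases hc : i % w.length + 1 < w.length
      · have he : (i + 1) % w.length = i % w.length + 1 := by
          rw [Nat.add_mod, Nat.mod_eq_of_lt (show 1 < w.length by omega), Nat.mod_eq_of_lt hc]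
        simpa [he] using hadj
      · have hq : i % w.length + 1 = w.length := by omega
        have he : (i + 1) % w.length = 0 := by
          rw [Nat.add_mod, Nat.mod_eq_of_lt (show 1 < w.length by omega), hq, Nat.mod_self]
        have hu : w.getVert (i % w.length + 1) = w.getVert 0 := by
          rw [hq]; simp
        rw [hu] at hadj
        simpa [he] using hadj)
    (by
      intro i h
      have h1 : i % w.length < w.length := Nat.mod_lt _ (by omega)
      have h2 : (i + 2) % w.length < w.length := Nat.mod_lt _ (by omega)
      have he := hinj (show i % w.length ≤ w.length - 1 by omega)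
        (show (i + 2) % w.length ≤ w.length - 1 by omega) h
      have h4 : (i + 2) % w.length = (i % w.length + 2) % w.length := by
        rw [Nat.add_mod, Nat.mod_eq_of_lt (show 2 < w.length by omega)]
      rw [h4] at he
      generalize i % w.length = r at h1 he
      by_cases hc : r + 2 < w.length
      · rw [Nat.mod_eq_of_lt hc] at he; omega
      · have h5 : (r + 2) % w.length = r + 2 - w.length := by
          rw [Nat.mod_eq_sub_mod (show r + 2 ≥ w.length by omega),
            Nat.mod_eq_of_lt (show r + 2 - w.length < w.length by omega)]
        rw [h5] at he; omega)
    (by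
      intro i
      simp)
  exact ⟨j, hj, hg⟩

end Pool.Agent.Helper69.GC
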